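import Pool.Agent.H92.MM.Def
import Pool.Agent.H75.AP.MertensB
import Pool.Agent.H1.Mertens

/-!
[H95 M3 MER3]  An elementary lower bound in Mertens' third theorem: `∏_{p<y} (1-1/p)^{-1} ≥ (e-1-ε) log y`,
hence `pr x a ≥ (e - 1 - ε) a` for large `x`.

The product is `≥ ∑ 1/n` over the `y`-smooth `n ≤ y^e`, and the indicator of smooth numbers is
`≥ 1 - #{p ∣ n : p ≥ y}`.
-/

namespace Pool.Agent.H95.M3

open Finset Filter Topology

/-- the sum over the smooth numbers up to `X` -/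
theorem smooth_le (N X : ℕ) :
    ∑ n ∈ (Icc 1 X).filter (· ∈ N.smoothNumbers), (n : ℝ)⁻¹ ≤
      ∏ p ∈ N.primesBelow, (1 - (p : ℝ)⁻¹)⁻¹ := by
  have h := (EulerProduct.summable_and_hasSum_smoothNumbers_prod_primesBelow_geometric
    (f := Pool.Agent.H1.invHom) (by
      intro p hp
      simp only [Pool.Agent.H1.invHom, MonoidHom.coe_mk, OneHom.coe_mk, norm_inv, Real.norm_natCast]
      exact inv_lt_one_of_one_lt₀ (by exact_mod_cast hp.one_lt)) N).2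
  have h1 : ∑ m ∈ (Icc 1 X).subtype (· ∈ N.smoothNumbers), Pool.Agent.H1.invHom (m : ℕ)
      ≤ ∏ p ∈ N.primesBelow, (1 - Pool.Agent.H1.invHom p)⁻¹ := by
    refine sum_le_hasSum _ (fun i _ => ?_) h
    simp only [Pool.Agent.H1.invHom, MonoidHom.coe_mk, OneHom.coe_mk]
    positivity
  refine le_trans (le_of_eq ?_) h1
  have h2 : ∑ m ∈ (Icc 1 X).subtype (· ∈ N.smoothNumbers), Pool.Agent.H1.invHom (m : ℕ)
      = ∑ m ∈ (Icc 1 X).filter (· ∈ N.smoothNumbers), Pool.Agent.H1.invHom m := by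
    rw [← Finset.subtype_map, Finset.sum_map]
    rfl
  rw [h2]
  rfl

/-- the primes of `[N, X]` -/
def QQ (N X : ℕ) : Finset ℕ := (Icc N X).filter Nat.Prime

/-- pointwise inequality -/
theorem smooth_ind (N X n : ℕ) (hn : n ∈ Icc 1 X) :
    (1 : ℝ) - (((QQ N X).filter (· ∣ n)).card : ℝ) ≤ if n ∈ N.smoothNumbers then (1 : ℝ) else 0 := by
  rw [mem_Icc] at hn
  split_ifs with h
  · have : (0 : ℝ) ≤ (((QQ N X).filter (· ∣ n)).card : ℝ) := by positivity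
    linarith
  · rw [Nat.mem_smoothNumbers'] at h
    push Not at h
    obtain ⟨p, hp, hpn, hNp⟩ := h
    have hmem : p ∈ (QQ N X).filter (· ∣ n) := by
      unfold QQ
      rw [mem_filter, mem_filter, mem_Icc]
      exact ⟨⟨⟨hNp, (Nat.le_of_dvd (by omega) hpn).trans hn.2⟩, hp⟩, hpn⟩
    have : 1 ≤ ((QQ N X).filter (· ∣ n)).card := card_pos.2 ⟨p, hmem⟩
    have : (1 : ℝ) ≤ (((QQ N X).filter (· ∣ n)).card : ℝ) := by exact_mod_cast this
    linarith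

/-- the multiples of `p` -/
theorem mult_sum (p X : ℕ) (hp : 0 < p) :
    ∑ n ∈ (Icc 1 X).filter (p ∣ ·), (n : ℝ)⁻¹ = (p : ℝ)⁻¹ * ∑ m ∈ Icc 1 (X / p), (m : ℝ)⁻¹ := by
  rw [mul_sum]
  symm
  apply sum_bij (fun m _ => p * m)
  · intro m hm
    rw [mem_Icc] at hm
    rw [mem_filter, mem_Icc]
    refine ⟨⟨Nat.mul_pos hp hm.1, ?_⟩, dvd_mul_right _ _⟩
    calc p * m ≤ p * (X / p) := Nat.mul_le_mul_left _ hm.2
      _ ≤ X := Nat.mul_div_le X p
  · intro m _ m' _ h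
    exact Nat.eq_of_mul_eq_mul_left hp h
  · intro n hn
    rw [mem_filter, mem_Icc] at hn
    obtain ⟨⟨h1, h2⟩, m, rfl⟩ := hn
    refine ⟨m, ?_, rfl⟩
    rw [mem_Icc]
    constructor
    · by_contra h3
      have : m = 0 := by omega
      rw [this] at h1
      omega
    · rw [Nat.le_div_iff_mul_le hp]
      linarith
  · intro m _
    push_cast
    rw [mul_inv]

theorem harm_low (X : ℕ) : Real.log X ≤ ∑ n ∈ Icc 1 X, (n : ℝ)⁻¹ := by
  rcases Nat.eq_zero_or_pos X with rfl | hX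
  · simp
  · have h := log_add_one_le_harmonic X
    rw [harmonic_eq_sum_Icc] at h
    push_cast at h
    refine le_trans (Real.log_le_log (by exact_mod_cast hX) (by push_cast; linarith)) h

theorem harm_up (m : ℕ) (hm : 1 ≤ m) : ∑ n ∈ Icc 1 m, (n : ℝ)⁻¹ ≤ 1 + Real.log m := by
  have h := harmonic_le_one_add_log m
  rw [harmonic_eq_sum_Icc] at h
  push_cast at h
  exact h

/-- the inequality for the product -/
theorem prod_ge (N X : ℕ) (hN : 1 ≤ N) :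
    Real.log X - ∑ p ∈ QQ N X, (p : ℝ)⁻¹ * (1 + Real.log X - Real.log p) ≤
      ∏ p ∈ N.primesBelow, (1 - (p : ℝ)⁻¹)⁻¹ := by
  refine le_trans ?_ (smooth_le N X)
  have h1 : ∑ n ∈ Icc 1 X, (n : ℝ)⁻¹ * ((1 : ℝ) - (((QQ N X).filter (· ∣ n)).card : ℝ)) ≤
      ∑ n ∈ (Icc 1 X).filter (· ∈ N.smoothNumbers), (n : ℝ)⁻¹ := by
    rw [sum_filter]
    apply sum_le_sum
    intro n hn
    have h2 := smooth_ind N X n hn
    have h3 : (0 : ℝ) ≤ (n : ℝ)⁻¹ := by positivity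
    calc (n : ℝ)⁻¹ * ((1 : ℝ) - (((QQ N X).filter (· ∣ n)).card : ℝ))
        ≤ (n : ℝ)⁻¹ * (if n ∈ N.smoothNumbers then (1 : ℝ) else 0) :=
          mul_le_mul_of_nonneg_left h2 h3
      _ = _ := by split_ifs <;> simp
  refine le_trans ?_ h1
  have h4 : ∑ n ∈ Icc 1 X, (n : ℝ)⁻¹ * ((1 : ℝ) - (((QQ N X).filter (· ∣ n)).card : ℝ)) =
      ∑ n ∈ Icc 1 X, (n : ℝ)⁻¹ - ∑ p ∈ QQ N X, ∑ n ∈ (Icc 1 X).filter (p ∣ ·), (n : ℝ)⁻¹ := by
    have h5 : ∑ p ∈ QQ N X, ∑ n ∈ (Icc 1 X).filter (p ∣ ·), (n : ℝ)⁻¹ =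
        ∑ n ∈ Icc 1 X, (n : ℝ)⁻¹ * (((QQ N X).filter (· ∣ n)).card : ℝ) := by
      simp_rw [sum_filter]
      rw [sum_comm]
      apply sum_congr rfl
      intro n _
      rw [← sum_filter, sum_const, nsmul_eq_mul, mul_comm]
    rw [h5, ← sum_sub_distrib]
    apply sum_congr rfl
    intro n _
    ring
  rw [h4]
  have h6 : ∑ p ∈ QQ N X, ∑ n ∈ (Icc 1 X).filter (p ∣ ·), (n : ℝ)⁻¹ ≤
      ∑ p ∈ QQ N X, (p : ℝ)⁻¹ * (1 + Real.log X - Real.log p) := by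
    apply sum_le_sum
    intro p hp
    unfold QQ at hp
    rw [mem_filter, mem_Icc] at hp
    have hp0 : 0 < p := hp.2.pos
    have hp0' : (0 : ℝ) < p := by exact_mod_cast hp0
    rw [mult_sum p X hp0]
    apply mul_le_mul_of_nonneg_left _ (by positivity)
    have h7 : 1 ≤ X / p := (Nat.one_le_div_iff hp0).2 hp.1.2
    refine (harm_up (X / p) h7).trans ?_
    have h8 : Real.log ((X / p : ℕ) : ℝ) ≤ Real.log ((X : ℝ) / p) := by
      apply Real.log_le_log (by exact_mod_cast h7)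
      exact Nat.cast_div_le
    have hX0 : (0 : ℝ) < X := by
      have : 0 < X := lt_of_lt_of_le hp0 hp.1.2
      exact_mod_cast this
    rw [Real.log_div hX0.ne' hp0'.ne'] at h8
    linarith
  have h9 := harm_low X
  linarith

theorem mer3 (ε : ℝ) (hε : 0 < ε) : ∀ᶠ y : ℝ in atTop,
    (Real.exp 1 - 1 - ε) * Real.log y ≤ ∏ p ∈ (⌈y⌉₊).primesBelow, (1 - (p : ℝ)⁻¹)⁻¹ := by
  obtain ⟨u0, hu0, hrat⟩ := Pool.Agent.H75.AP.mertens_ratio (Real.exp 1) (ε / 12)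
    (by have := Real.add_one_lt_exp (one_ne_zero); linarith) (by positivity)
  obtain ⟨C, hC, hlow⟩ := Pool.Agent.H75.AP.logp_lower
  have he1 : (1 : ℝ) < Real.exp 1 := by
    have := Real.add_one_lt_exp (one_ne_zero); linarith
  have he3 : Real.exp 1 < 3 := by linarith [Real.exp_one_lt_d9]
  have hlogy : ∀ᶠ y : ℝ in atTop, (C + 1 + ε / 6) * 2 / ε ≤ Real.log y :=
    Real.tendsto_log_atTop.eventually_ge_atTop _
  filter_upwards [eventually_ge_atTop u0, eventually_ge_atTop (2 : ℝ), hlogy,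
    eventually_ge_atTop (12 / ε + 1)] with y hyu hy2 hly hyε
  have hy0 : 0 < y := by linarith
  have hlog0 : 0 < Real.log y := Real.log_pos (by linarith)
  set v : ℝ := y ^ Real.exp 1 with hv
  have hv1 : y ≤ v := by
    rw [hv]
    calc y = y ^ (1 : ℝ) := (Real.rpow_one y).symm
      _ ≤ y ^ Real.exp 1 := Real.rpow_le_rpow_of_exponent_le (by linarith) he1.le
  have hv0 : 0 < v := by linarith
  set N : ℕ := ⌈y⌉₊ with hN
  set X : ℕ := ⌊v⌋₊ with hX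
  have hN1 : 1 ≤ N := by
    rw [hN]
    exact Nat.ceil_pos.2 hy0
  have hX1 : (1 : ℝ) ≤ X := by
    have : 1 ≤ X := Nat.le_floor (by push_cast; linarith)
    exact_mod_cast this
  have hXv : (X : ℝ) ≤ v := Nat.floor_le hv0.le
  have hlogX0 : 0 ≤ Real.log X := Real.log_nonneg hX1
  have hlogX : Real.log X ≤ Real.exp 1 * Real.log y := by
    rw [← Real.log_rpow hy0, ← hv]
    exact Real.log_le_log (by linarith) hXv
  refine le_trans ?_ (prod_ge N X hN1)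
  -- the sums over the primes of `[N, X]`
  have hQmem : ∀ p ∈ QQ N X, p.Prime ∧ y ≤ (p : ℝ) ∧ (p : ℝ) ≤ v := by
    intro p hp
    unfold QQ at hp
    rw [mem_filter, mem_Icc] at hp
    refine ⟨hp.2, ?_, ?_⟩
    · calc y ≤ (N : ℝ) := Nat.le_ceil y
        _ ≤ p := by exact_mod_cast hp.1.1
    · exact (by exact_mod_cast hp.1.2 : (p : ℝ) ≤ X).trans hXv
  have hS0 : ∑ p ∈ QQ N X, (p : ℝ)⁻¹ ≤ 1 + ε / 6 := by
    have h1 := hrat y v hyu le_rfl
    rw [Real.log_exp] at h1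
    have hsub : QQ N X ⊆ insert ⌊y⌋₊ (Pool.Agent.H75.AP.PI y v) := by
      intro p hp
      obtain ⟨hp1, hp2, hp3⟩ := hQmem p hp
      rw [mem_insert]
      rcases hp2.eq_or_lt with he | hl
      · left
        rw [he, Nat.floor_natCast]
      · right
        rw [Pool.Agent.H75.AP.MertB.mem_PI hy0.le]
        exact ⟨hp1, hl, hp3⟩
    have h2 : ∑ p ∈ QQ N X, (p : ℝ)⁻¹ ≤ ∑ p ∈ insert ⌊y⌋₊ (Pool.Agent.H75.AP.PI y v), (p : ℝ)⁻¹ :=
      sum_le_sum_of_subset_of_nonneg hsub fun _ _ _ => by positivity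
    have h3 : ∑ p ∈ insert ⌊y⌋₊ (Pool.Agent.H75.AP.PI y v), (p : ℝ)⁻¹ ≤
        (⌊y⌋₊ : ℝ)⁻¹ + ∑ p ∈ Pool.Agent.H75.AP.PI y v, (p : ℝ)⁻¹ := by
      by_cases hmem : ⌊y⌋₊ ∈ Pool.Agent.H75.AP.PI y v
      · rw [insert_eq_of_mem hmem]
        have : (0 : ℝ) ≤ (⌊y⌋₊ : ℝ)⁻¹ := by positivity
        linarith
      · rw [sum_insert hmem]
    have h4 : (⌊y⌋₊ : ℝ)⁻¹ ≤ ε / 12 := by
      have h41 : y < (⌊y⌋₊ : ℝ) + 1 := Nat.lt_floor_add_one y
      have h42 : 12 / ε ≤ (⌊y⌋₊ : ℝ) := by linarith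
      have h43 : 0 < 12 / ε := by positivity
      calc (⌊y⌋₊ : ℝ)⁻¹ ≤ (12 / ε)⁻¹ := inv_anti₀ h43 h42
        _ = ε / 12 := by rw [inv_div]
    have h5 : ∑ p ∈ Pool.Agent.H75.AP.PI y v, (p : ℝ)⁻¹ =
        ∑ p ∈ Pool.Agent.H75.AP.PI y v, 1 / (p : ℝ) := by
      simp_rw [one_div]
    linarith
  have hS1 : (Real.exp 1 - 1) * Real.log y - C ≤ ∑ p ∈ QQ N X, (p : ℝ)⁻¹ * Real.log p := by
    have h1 := hlow y v (by linarith) hv1
    rw [hv, Real.log_rpow hy0, ← hv] at h1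
    have h2 : ∑ p ∈ Pool.Agent.H75.AP.PI y v, Real.log p / p ≤
        ∑ p ∈ QQ N X, (p : ℝ)⁻¹ * Real.log p := by
      have h3 : ∑ p ∈ Pool.Agent.H75.AP.PI y v, Real.log p / p =
          ∑ p ∈ Pool.Agent.H75.AP.PI y v, (p : ℝ)⁻¹ * Real.log p := by
        apply sum_congr rfl
        intro p _
        ring
      rw [h3]
      apply sum_le_sum_of_subset_of_nonneg
      · intro p hp
        rw [Pool.Agent.H75.AP.MertB.mem_PI hy0.le] at hp
        unfold QQ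
        rw [mem_filter, mem_Icc]
        exact ⟨⟨Nat.ceil_le.2 hp.2.1.le, Nat.le_floor hp.2.2⟩, hp.1⟩
      · intro p hp _
        have := (hQmem p hp).1
        have h4 : (1 : ℝ) ≤ p := by exact_mod_cast this.one_lt.le
        have := Real.log_nonneg h4
        positivity
    linarith
  have hexp : ∑ p ∈ QQ N X, (p : ℝ)⁻¹ * (1 + Real.log X - Real.log p) =
      (1 + Real.log X) * ∑ p ∈ QQ N X, (p : ℝ)⁻¹ - ∑ p ∈ QQ N X, (p : ℝ)⁻¹ * Real.log p := by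
    rw [mul_sum, ← sum_sub_distrib]
    apply sum_congr rfl
    intro p _
    ring
  rw [hexp]
  set S0 := ∑ p ∈ QQ N X, (p : ℝ)⁻¹
  set S1 := ∑ p ∈ QQ N X, (p : ℝ)⁻¹ * Real.log p
  have h6 : (1 + Real.log X) * S0 ≤ (1 + Real.log X) * (1 + ε / 6) :=
    mul_le_mul_of_nonneg_left hS0 (by linarith)
  have h7 : Real.log X * (ε / 6) ≤ (Real.exp 1 * Real.log y) * (ε / 6) :=
    mul_le_mul_of_nonneg_right hlogX (by positivity)
  have h8 : Real.exp 1 * Real.log y * (ε / 6) ≤ ε / 2 * Real.log y := by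
    have h81 : 0 < Real.log y * ε := mul_pos hlog0 hε
    have h82 : Real.exp 1 * (Real.log y * ε) ≤ 3 * (Real.log y * ε) :=
      mul_le_mul_of_nonneg_right he3.le h81.le
    linarith
  have h9 : (C + 1 + ε / 6) ≤ ε / 2 * Real.log y := by
    rw [div_le_iff₀ hε] at hly
    linarith
  have h10 : (1 + Real.log X) * (1 + ε / 6) = 1 + ε / 6 + Real.log X + Real.log X * (ε / 6) := by ring
  have h11 : (Real.exp 1 - 1 - ε) * Real.log y =
      (Real.exp 1 - 1) * Real.log y - ε / 2 * Real.log y - ε / 2 * Real.log y := by ring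
  rw [h11]
  linarith

theorem pr_ge (ε a : ℝ) (hε : 0 < ε) (ha : 0 < a) : ∀ᶠ x : ℝ in atTop,
    (Real.exp 1 - 1 - ε) * a ≤ Pool.Agent.H92.MM.pr x a := by
  have h := (tendsto_rpow_atTop ha).eventually (mer3 ε hε)
  filter_upwards [h, eventually_ge_atTop (2 : ℝ)] with x hx hx2
  have hx0 : 0 < x := by linarith
  have hlog : 0 < Real.log x := Real.log_pos (by linarith)
  rw [Real.log_rpow hx0] at hx
  unfold Pool.Agent.H92.MM.pr
  have hprod : ∏ p ∈ (⌈x ^ a⌉₊).primesBelow, (1 - (p : ℝ)⁻¹)⁻¹ =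
      (∏ p ∈ (range ⌈x ^ a⌉₊).filter Nat.Prime, (1 - 1 / (p : ℝ)))⁻¹ := by
    rw [← prod_inv_distrib]
    apply prod_congr rfl
    intro p _
    rw [one_div]
  rw [hprod] at hx
  rw [one_div, mul_inv]
  calc (Real.exp 1 - 1 - ε) * a = (Real.log x)⁻¹ * ((Real.exp 1 - 1 - ε) * (a * Real.log x)) := by
        field_simp
    _ ≤ _ := by
        apply mul_le_mul_of_nonneg_left hx (by positivity)

end Pool.Agent.H95.M3
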